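import Pool.Agent.H73.GWQ.Stmts

/-! Row PAQ of project GWQ (MP_213ba5_lc). -/

set_option autoImplicit false

open Classical GWT

namespace GWQ

theorem PAQ (V : Type*) : PAQStmt V := by
  intro T hT y n D Q P hQP hstep hseg
  have hlen : ∀ i k, i + k ≤ n → T.dist (y i) (y (i + k)) ≤ D * k := by
    intro i k
    induction k with
    | zero => intro _; simp
    | succ k ih =>
      intro hk
      have t := dtri hT (y i) (y (i + k)) (y (i + k + 1))
      have s := hstep (i + k) (by omega)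
      have h := ih (by omega)
      rw [Nat.mul_succ, ← Nat.add_assoc]
      omega
  have hQ0 : Bt T (y 0) Q P := by
    unfold Bt
    have t1 := dtri hT (y 0) Q P
    have t2 := dtri hT (y 0) P (y n)
    omega
  have hPn : Bt T Q P (y n) := by
    unfold Bt
    have t1 := dtri hT Q P (y n)
    have t2 := dtri hT (y 0) Q (y n)
    omega
  have hpos : 0 < T.dist Q P := by
    rcases Nat.eq_zero_or_pos (T.dist Q P) with h | h
    · exact absurd (dzero hT h) hQP
    · exact h
  have hboth : ∀ j, Bt T (y j) Q P → Bt T Q P (y j) → False := by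
    intro j h1 h2
    unfold Bt at h1 h2
    have c1 := dcomm (T := T) (y j) Q
    have c2 := dcomm (T := T) (y j) P
    omega
  have hex : ∃ j, Bt T Q P (y j) := ⟨n, hPn⟩
  obtain ⟨j2, hj2P, hj2min, hj2len⟩ : ∃ j2, Bt T Q P (y j2) ∧
      (∀ j, j < j2 → ¬ Bt T Q P (y j)) ∧ j2 ≤ n :=
    ⟨Nat.find hex, Nat.find_spec hex, fun j hj => Nat.find_min hex hj, Nat.find_min' hex hPn⟩
  have hj2pos : 0 < j2 := by
    rcases Nat.eq_zero_or_pos j2 with h | h
    · subst h
      exact (hboth 0 hQ0 hj2P).elim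
    · exact h
  obtain ⟨j1, hj1lt, hj1Q, hj1max⟩ : ∃ j1, j1 < j2 ∧ Bt T (y j1) Q P ∧
      ∀ j, j1 < j → j < j2 → ¬ Bt T (y j) Q P := by
    refine ⟨Nat.findGreatest (fun j => Bt T (y j) Q P) (j2 - 1), ?_, ?_, ?_⟩
    · have := Nat.findGreatest_le (P := fun j => Bt T (y j) Q P) (j2 - 1)
      omega
    · exact Nat.findGreatest_spec (P := fun j => Bt T (y j) Q P) (Nat.zero_le (j2 - 1)) hQ0
    · intro j h1 h2
      exact Nat.findGreatest_is_greatest (P := fun j => Bt T (y j) Q P) h1 (by omega)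
  have hnext : ¬ Bt T (y (j1 + 1)) Q P := by
    rcases Nat.lt_or_ge (j1 + 1) j2 with h | h
    · exact hj1max _ (by omega) h
    · have he : j1 + 1 = j2 := by omega
      rw [he]
      exact fun h' => hboth j2 h' hj2P
  have hA : Bt T (y j1) Q (y (j1 + 1)) := SID hT hj1Q hnext
  have ht1 : T.dist (y j1) Q ≤ D := by
    have s := hstep j1 (by omega)
    unfold Bt at hA
    omega
  obtain ⟨i, hi⟩ : ∃ i, j2 = i + 1 := ⟨j2 - 1, by omega⟩
  have hB : Bt T (y j2) P (y i) := by
    refine SID hT (P := Q) (Bt.symm hj2P) ?_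
    intro h
    exact hj2min i (by omega) (Bt.symm h)
  have ht2 : T.dist (y j2) P ≤ D := by
    have s := hstep i (by omega)
    rw [← hi] at s
    unfold Bt at hB
    have c2 := dcomm (T := T) (y j2) (y i)
    omega
  obtain ⟨c1, c2⟩ := CAT hT hj1Q hj2P hQP
  have htot : T.dist (y j1) (y j2) =
      T.dist (y j1) Q + T.dist Q P + T.dist P (y j2) := by
    unfold Bt at c1 c2 hj1Q hj2P
    omega
  refine ⟨j1, j2, by omega, hj2len, ht1, ht2, ?_⟩
  have h1 := hlen j1 (j2 - j1) (by omega)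
  rw [show j1 + (j2 - j1) = j2 by omega] at h1
  have h2 : T.dist Q P ≤ T.dist (y j1) (y j2) := by omega
  exact le_trans h2 h1

end GWQ
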